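import Pool.Agent.Helper21.T5g.SZStmts
import Pool.Agent.Helper2.T5g.ZEnd

/-!
# T5g, CaseSplitInj, line E: the number of the sums and the exponents
-/

set_option autoImplicit false

namespace Pool.Agent.Helper53.T5g

open Finset
open Pool.Agent.Helper37.T5g
open Pool.Agent.Helper84.T5g
open Pool.Agent.Helper21.T5g
open Pool.Agent.Helper99.T5g (OkF)

/-- **line E** -/
theorem endI : EndI := by
  refine ⟨256 * 10, fun m hm => ?_⟩
  obtain ⟨l2, h2⟩ := Pool.Agent.Helper30.T5g.exists_late (k := m.k) hm.toOk 0 0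
  refine ⟨l2, fun s l' l hK hZ => ?_⟩
  have hlt := hZ.lt
  have hks := hZ.P.ks
  have hsl := hZ.sl
  have hbl := hZ.P.b1
  have hk2 := hm.k2
  have hr1 := hZ.P.rL1
  obtain ⟨-, a1, a2, -, a3⟩ := h2 l (by omega)
  have hh1 := one_le_hz m s l' l
  have hh2 := hz_le_two m s l' l
  have hW : l ≤ 2 ^ (6 * m.q 0 + 8) * SS m (s - hz m s l' l) := by
    have h4 := Pool.Agent.Helper2.T5g.le_wW (i := hz m s l' l + 1) hm a1 a3 (by omega)
      (by omega)
    unfold Pool.Agent.Helper22.NEARg.wW at h4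
    rwa [hsl, show s + 1 - (hz m s l' l + 1) = s - hz m s l' l by omega] at h4
  have hWb : SS m (bL m m.k l) ≤ SS m (s - hz m s l' l) :=
    SS_mono m (show bL m m.k l ≤ s - hz m s l' l by omega)
  have hd : dZ m s l' l = (SS m (s - hz m s l' l) : ℝ) / 200 := rfl
  rw [hd]
  generalize SS m (s - hz m s l' l) = W at hW hWb ⊢
  have hWr : (l : ℝ) ≤ 2 ^ (6 * m.q 0 + 8) * (W : ℝ) := by exact_mod_cast hW
  have hWbr : (SS m (bL m m.k l) : ℝ) ≤ W := by exact_mod_cast hWb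
  have hW0 : (0 : ℝ) ≤ (W : ℝ) := Nat.cast_nonneg _
  have hq := hm.q 0
  refine ⟨200 * (2 ^ (9 * m.q 0 + 8) + 1), Nat.succ_le_of_lt (by positivity), ?_, ?_⟩
  · have e1 : ((200 * (2 ^ (9 * m.q 0 + 8) + 1) + 1 : ℕ) : ℝ) * ((W : ℝ) / 200) =
        2 ^ (9 * m.q 0 + 8) * (W : ℝ) + W + W / 200 := by
      push_cast
      ring
    rw [e1]
    have e2 : (2 : ℝ) ^ (3 * m.q 0) * (2 ^ (6 * m.q 0 + 8) * (W : ℝ)) =
        2 ^ (9 * m.q 0 + 8) * (W : ℝ) := by
      rw [← mul_assoc, ← pow_add]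
      congr 2
      ring
    have e3 := mul_le_mul_of_nonneg_left hWr (show (0 : ℝ) ≤ 2 ^ (3 * m.q 0) by positivity)
    linarith
  · have e1 : 200 * (2 ^ (9 * m.q 0 + 8) + 1) + 1 ≤ 2 ^ (10 * m.q 0) := by
      have e2 : 2 ^ (9 * m.q 0 + 8) * 2 ^ 9 ≤ 2 ^ (10 * m.q 0) := by
        rw [← pow_add]
        exact Nat.pow_le_pow_right (by norm_num) (by omega)
      have e3 : 1 ≤ 2 ^ (9 * m.q 0 + 8) := Nat.one_le_two_pow
      omega
    refine (Nat.pow_le_pow_left e1 _).trans (le_of_eq ?_)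
    rw [← pow_mul]
    congr 1
    ring

end Pool.Agent.Helper53.T5g
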